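import Mathlib

/-! Elements of `ℤ[√2]` of norm a power of a prime with small slope, with exponent in a given class.
Adapted from the starting file `Pool.Agent.H359R4.SmallAngle`, where Gaussian integers are treated. -/

set_option autoImplicit false

namespace Pool.Agent.Helper97.TV

open Real

/-- the two embeddings of `ℤ[√2]` -/
noncomputable def ph : ℤ√2 →+* ℝ := Zsqrtd.lift ⟨√2, by norm_num⟩

noncomputable def ph' : ℤ√2 →+* ℝ := Zsqrtd.lift ⟨-√2, by norm_num⟩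

lemma ph_apply (x : ℤ√2) : ph x = x.re + x.im * √2 := Zsqrtd.lift_apply_apply _ _

lemma ph'_apply (x : ℤ√2) : ph' x = x.re - x.im * √2 := by
  unfold ph'
  rw [Zsqrtd.lift_apply_apply]
  ring

lemma ph_mul_ph' (x : ℤ√2) : ph x * ph' x = (x.norm : ℝ) := by
  rw [ph_apply, ph'_apply, Zsqrtd.norm_def]
  push_cast
  have : √2 * √2 = (2 : ℝ) := by norm_num
  linear_combination (-(x.im : ℝ) * x.im) * this

/-- the square of the fundamental unit -/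
def eu : (ℤ√2)ˣ := ⟨⟨3, 2⟩, ⟨3, -2⟩, by ext <;> simp, by ext <;> simp⟩

lemma ph_eu (j : ℤ) : ph ((eu ^ j : (ℤ√2)ˣ) : ℤ√2) = (3 + 2 * √2) ^ j := by
  have h : ((Units.map (ph : ℤ√2 →* ℝ)) (eu ^ j) : ℝ) = (3 + 2 * √2) ^ j := by
    rw [map_zpow, Units.val_zpow_eq_zpow_val]
    have e : ((Units.map (ph : ℤ√2 →* ℝ)) eu : ℝ) = 3 + 2 * √2 := by
      show ph (eu : ℤ√2) = _
      rw [ph_apply]
      simp [eu]
    rw [e]
  exact h

lemma ph'_eu (j : ℤ) : ph' ((eu ^ j : (ℤ√2)ˣ) : ℤ√2) = (3 - 2 * √2) ^ j := by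
  have h : ((Units.map (ph' : ℤ√2 →* ℝ)) (eu ^ j) : ℝ) = (3 - 2 * √2) ^ j := by
    rw [map_zpow, Units.val_zpow_eq_zpow_val]
    have e : ((Units.map (ph' : ℤ√2 →* ℝ)) eu : ℝ) = 3 - 2 * √2 := by
      show ph' (eu : ℤ√2) = _
      rw [ph'_apply]
      simp [eu]
    rw [e]
  exact h

lemma eu_norm (j : ℤ) : ((eu ^ j : (ℤ√2)ˣ) : ℤ√2).norm = 1 := by
  have h := ph_mul_ph' ((eu ^ j : (ℤ√2)ˣ) : ℤ√2)
  rw [ph_eu, ph'_eu, ← mul_zpow] at h
  have h2 : (3 + 2 * √2) * (3 - 2 * √2) = (1 : ℝ) := by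
    have h2 : √2 * √2 = (2 : ℝ) := by norm_num
    linear_combination (-4) * h2
  rw [h2, one_zpow] at h
  exact_mod_cast h.symm

lemma sqrt2_lt : √2 < 3 / 2 := by
  rw [Real.sqrt_lt' (by norm_num)]; norm_num

lemma one_lt_sqrt2 : 1 < √2 := by
  rw [Real.lt_sqrt (by norm_num)]; norm_num

/-- congruence for the powers -/
lemma pow_congr {p s t : ℤ} (hst : s ^ 2 - 2 * t ^ 2 = p) (n : ℕ) :
    ∃ c : ℤ√2, (⟨s, t⟩ : ℤ√2) ^ (n + 1) = ((2 * s : ℤ) : ℤ√2) ^ n * ⟨s, t⟩ + (p : ℤ√2) * c := by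
  induction n with
  | zero => exact ⟨0, by simp⟩
  | succ n ih =>
    obtain ⟨c, hc⟩ := ih
    refine ⟨c * ⟨s, t⟩ - ((2 * s : ℤ) : ℤ√2) ^ n, ?_⟩
    have h2 : (⟨s, t⟩ : ℤ√2) * ⟨s, t⟩ = ((2 * s : ℤ) : ℤ√2) * ⟨s, t⟩ - (p : ℤ√2) := by
      ext
      · simp
        linear_combination -hst
      · simp
        ring
    rw [pow_succ, hc, add_mul, mul_assoc, h2]
    ring

lemma not_dvd_pow {p : ℕ} {s t : ℤ} (hp : p.Prime) (hp2 : p ≠ 2) (hst : s ^ 2 - 2 * t ^ 2 = p)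
    (n : ℕ) (u : (ℤ√2)ˣ) : ¬ ((p : ℤ) : ℤ√2) ∣ (⟨s, t⟩ : ℤ√2) ^ (n + 1) * u := by
  intro h
  have hpi : Prime (p : ℤ) := Nat.prime_iff_prime_int.mp hp
  have h1 : ((p : ℤ) : ℤ√2) ∣ (⟨s, t⟩ : ℤ√2) ^ (n + 1) := by
    have := h.mul_right ((u⁻¹ : (ℤ√2)ˣ) : ℤ√2)
    rwa [mul_assoc, Units.mul_inv, mul_one] at this
  obtain ⟨c, hc⟩ := pow_congr hst n
  rw [hc] at h1
  have h2 : ((p : ℤ) : ℤ√2) ∣ ((2 * s : ℤ) : ℤ√2) ^ n * ⟨s, t⟩ :=
    (dvd_add_left (Dvd.intro c rfl)).mp h1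
  have e1 : ((2 * s : ℤ) : ℤ√2) ^ n * ⟨s, t⟩ = ⟨(2 * s) ^ n * s, (2 * s) ^ n * t⟩ := by
    rw [← Int.cast_pow]
    generalize (2 * s) ^ n = w
    ext <;> simp
  rw [e1, Zsqrtd.intCast_dvd] at h2
  obtain ⟨h3, h4⟩ := h2
  simp only at h3 h4
  have h2p : ¬ (p : ℤ) ∣ 2 := by
    intro h5
    have : p ∣ 2 := by exact_mod_cast h5
    exact hp2 ((Nat.prime_dvd_prime_iff_eq hp Nat.prime_two).mp this)
  have key : (p : ℤ) ∣ s → (p : ℤ) ∣ t → False := by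
    rintro ⟨a, ha⟩ ⟨b, hb⟩
    rw [ha, hb] at hst
    have h5 : (p : ℤ) * (p * (a ^ 2 - 2 * b ^ 2)) = p * 1 := by linear_combination hst
    have h6 := mul_left_cancel₀ hpi.ne_zero h5
    exact hpi.not_dvd_one ⟨_, h6.symm⟩
  have hs_t : (p : ℤ) ∣ s → (p : ℤ) ∣ t := by
    intro h5
    have h6 : (p : ℤ) ∣ 2 * t ^ 2 := by
      have : 2 * t ^ 2 = s ^ 2 - p := by linarith
      rw [this]
      exact dvd_sub (dvd_pow h5 two_ne_zero) dvd_rfl
    exact hpi.dvd_of_dvd_pow ((hpi.dvd_or_dvd h6).resolve_left h2p)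
  have ht_s : (p : ℤ) ∣ t → (p : ℤ) ∣ s := by
    intro h5
    have h6 : (p : ℤ) ∣ s ^ 2 := by
      have : s ^ 2 = p + 2 * t ^ 2 := by linarith
      rw [this]
      exact dvd_add dvd_rfl (dvd_mul_of_dvd_right (dvd_pow h5 two_ne_zero) _)
    exact hpi.dvd_of_dvd_pow h6
  rcases hpi.dvd_or_dvd h4 with h5 | h5
  · have h6 := hpi.dvd_of_dvd_pow h5
    have h7 := (hpi.dvd_or_dvd h6).resolve_left h2p
    exact key h7 (hs_t h7)
  · exact key (ht_s h5) h5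

/-- the logarithm of the quotient of the two embeddings -/
noncomputable def lr (x : ℤ√2) : ℝ := Real.log (ph x) - Real.log (ph' x)

lemma ph_pos_eu (j : ℤ) : 0 < ph ((eu ^ j : (ℤ√2)ˣ) : ℤ√2) := by
  rw [ph_eu]
  have := one_lt_sqrt2
  positivity

lemma ph'_pos_eu (j : ℤ) : 0 < ph' ((eu ^ j : (ℤ√2)ˣ) : ℤ√2) := by
  rw [ph'_eu]
  have := sqrt2_lt
  have : 0 < 3 - 2 * √2 := by linarith
  positivity

lemma lr_mul {x y : ℤ√2} (h1 : 0 < ph x) (h2 : 0 < ph' x) (h3 : 0 < ph y) (h4 : 0 < ph' y) :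
    lr (x * y) = lr x + lr y := by
  unfold lr
  rw [map_mul, map_mul, Real.log_mul h1.ne' h3.ne', Real.log_mul h2.ne' h4.ne']
  ring

lemma lr_pow {x : ℤ√2} (n : ℕ) : lr (x ^ n) = n * lr x := by
  unfold lr
  rw [map_pow, map_pow, Real.log_pow, Real.log_pow]
  ring

lemma lr_eu (j : ℤ) : lr ((eu ^ j : (ℤ√2)ˣ) : ℤ√2) = j * (2 * Real.log (3 + 2 * √2)) := by
  unfold lr
  rw [ph_eu, ph'_eu, Real.log_zpow, Real.log_zpow]
  have h : 3 - 2 * √2 = (3 + 2 * √2)⁻¹ := by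
    have h2 : √2 * √2 = (2 : ℝ) := by norm_num
    have h3 : 0 < 3 + 2 * √2 := by positivity
    refine eq_inv_of_mul_eq_one_left ?_
    linear_combination (-4) * h2
  rw [h, Real.log_inv]
  ring

lemma log_pos' : 0 < Real.log (3 + 2 * √2) := by
  apply Real.log_pos
  have := one_lt_sqrt2
  linarith

lemma norm_pow_eu {p : ℕ} {s t : ℤ} (hst : s ^ 2 - 2 * t ^ 2 = p) (n : ℕ) (j : ℤ) :
    ((⟨s, t⟩ : ℤ√2) ^ n * ((eu ^ j : (ℤ√2)ˣ) : ℤ√2)).norm = (p : ℤ) ^ n := by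
  rw [Zsqrtd.norm_mul, eu_norm, mul_one]
  have h : (⟨s, t⟩ : ℤ√2).norm = p := by
    rw [Zsqrtd.norm_def, ← hst]
    simp only
    ring
  induction n with
  | zero => simp [Zsqrtd.norm_def]
  | succ n ih => rw [pow_succ, Zsqrtd.norm_mul, ih, h, pow_succ]

/-- Realisation: an integer combination of the logarithms that is small and positive gives a primitive
vector with small slope and norm a power of `p`. -/
theorem realize {p : ℕ} {s t : ℤ} (hp : p.Prime) (hp2 : p ≠ 2) (hst : s ^ 2 - 2 * t ^ 2 = p)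
    (h1 : 0 < ph ⟨s, t⟩) (h2 : 0 < ph' ⟨s, t⟩) (M0 n : ℕ) (j : ℤ)
    (hφ0 : 0 < n * lr ⟨s, t⟩ + j * (2 * Real.log (3 + 2 * √2)))
    (hφ1 : n * lr ⟨s, t⟩ + j * (2 * Real.log (3 + 2 * √2)) < Real.log (1 + 1 / (M0 + 2))) :
    ∃ G1 G2 : ℕ, 1 ≤ G2 ∧ M0 * G2 ≤ G1 ∧ Nat.Coprime G1 G2 ∧
      G1 ^ 2 + 4 * (G1 * G2) + 2 * G2 ^ 2 = p ^ n := by
  set α : ℤ√2 := (⟨s, t⟩ : ℤ√2) ^ n * ((eu ^ j : (ℤ√2)ˣ) : ℤ√2) with hα
  have hx : 0 < ph α := by
    rw [hα, map_mul, map_pow]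
    exact mul_pos (pow_pos h1 n) (ph_pos_eu j)
  have hy : 0 < ph' α := by
    rw [hα, map_mul, map_pow]
    exact mul_pos (pow_pos h2 n) (ph'_pos_eu j)
  have hlr : lr α = n * lr ⟨s, t⟩ + j * (2 * Real.log (3 + 2 * √2)) := by
    rw [hα, lr_mul (by rw [map_pow]; exact pow_pos h1 n) (by rw [map_pow]; exact pow_pos h2 n)
      (ph_pos_eu j) (ph'_pos_eu j), lr_pow, lr_eu]
  rw [← hlr] at hφ0 hφ1
  unfold lr at hφ0 hφ1
  have hxy : ph' α < ph α := (Real.log_lt_log_iff hy hx).mp (by linarith)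
  have hM : (0 : ℝ) < M0 + 2 := by positivity
  have hxy2 : ph α < ph' α * (1 + 1 / (M0 + 2)) := by
    rw [← Real.log_lt_log_iff hx (by positivity), Real.log_mul hy.ne' (by positivity)]
    linarith
  have hN := norm_pow_eu hst n j
  rw [← hα, Zsqrtd.norm_def] at hN
  rw [ph_apply, ph'_apply] at hxy
  rw [ph'_apply] at hy
  rw [ph_apply] at hx
  rw [ph_apply, ph'_apply] at hxy2
  have h2s : √2 * √2 = (2 : ℝ) := by norm_num
  have hs1 := one_lt_sqrt2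
  generalize hS : α.re = S at *
  generalize hT : α.im = T at *
  have hT0 : (0 : ℝ) < T := by
    have : 0 < (T : ℝ) * √2 := by linarith
    exact pos_of_mul_pos_left this (by positivity)
  have hT1 : 1 ≤ T := by
    have : (0 : ℤ) < T := by exact_mod_cast hT0
    omega
  have hMT : ((M0 : ℝ) + 2) * T < S := by
    have e1 : ((M0 : ℝ) + 2) * (2 * (T * √2)) < S - T * √2 := by
      have e2 : (S - T * √2) * (1 + 1 / ((M0 : ℝ) + 2)) =
        (S - T * √2) + (S - T * √2) / (M0 + 2) := by field_simp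
      rw [e2] at hxy2
      have e3 : 2 * (T * √2) < (S - T * √2) / ((M0 : ℝ) + 2) := by linarith
      rw [lt_div_iff₀ hM] at e3
      linarith
    have e4 : (T : ℝ) < T * √2 := by nlinarith
    have e5 : ((M0 : ℝ) + 2) * T ≤ (M0 + 2) * (2 * (T * √2)) := by
      apply mul_le_mul_of_nonneg_left _ hM.le
      linarith
    linarith
  have hMT' : ((M0 : ℤ) + 2) * T ≤ S := by
    have : (((M0 : ℤ) + 2) * T : ℝ) ≤ (S : ℝ) := by push_cast; exact hMT.le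
    exact_mod_cast this
  obtain ⟨G2, hG2⟩ : ∃ G2 : ℕ, (G2 : ℤ) = T := ⟨T.toNat, by omega⟩
  have hS2 : 0 ≤ S - 2 * T := by nlinarith
  obtain ⟨G1, hG1⟩ : ∃ G1 : ℕ, (G1 : ℤ) = S - 2 * T := ⟨(S - 2 * T).toNat, by omega⟩
  refine ⟨G1, G2, by omega, ?_, ?_, ?_⟩
  · zify
    rw [hG1, hG2]
    linarith
  · apply Nat.coprime_of_dvd
    intro l hl h3 h4
    have h5 : (l : ℤ) ∣ T := by rw [← hG2]; exact_mod_cast h4
    have h6 : (l : ℤ) ∣ S := by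
      have h7 : (l : ℤ) ∣ S - 2 * T := by rw [← hG1]; exact_mod_cast h3
      have := dvd_add h7 (dvd_mul_of_dvd_right h5 2)
      rwa [sub_add_cancel] at this
    have h8 : (l : ℤ) ∣ (p : ℤ) ^ n := by
      rw [← hN]
      exact dvd_sub (dvd_mul_of_dvd_left h6 _) (dvd_mul_of_dvd_right h5 _)
    have h9 : l ∣ p ^ n := by exact_mod_cast h8
    rcases Nat.eq_zero_or_pos n with h0 | h0
    · rw [h0, pow_zero] at h9
      exact hl.one_lt.ne' (Nat.dvd_one.mp h9)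
    · have h10 : l = p := (Nat.prime_dvd_prime_iff_eq hl hp).mp (hl.dvd_of_dvd_pow h9)
      subst h10
      obtain ⟨m, rfl⟩ : ∃ m, n = m + 1 := ⟨n - 1, by omega⟩
      apply not_dvd_pow hp hp2 hst m (eu ^ j)
      rw [← hα, Zsqrtd.intCast_dvd, hS, hT]
      exact ⟨h6, h5⟩
  · zify
    rw [hG1, hG2, ← hN]
    ring

lemma irr {p : ℕ} {s t : ℤ} (hp : p.Prime) (hp2 : p ≠ 2) (hst : s ^ 2 - 2 * t ^ 2 = p)
    (h1 : 0 < ph ⟨s, t⟩) (h2 : 0 < ph' ⟨s, t⟩) (m : ℕ) (hm : 1 ≤ m) :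
    Irrational ((m * lr ⟨s, t⟩) / (2 * Real.log (3 + 2 * √2))) := by
  rintro ⟨q, hq⟩
  have hE := log_pos'
  set E := Real.log (3 + 2 * √2) with hEdef
  have e1 : (m : ℝ) * lr ⟨s, t⟩ = q * (2 * E) := by
    rw [hq]; field_simp
  have hden : (q.den : ℝ) ≠ 0 := by exact_mod_cast q.den_nz
  have e2 : (q.den : ℝ) * q = q.num := by
    rw [mul_comm]; exact_mod_cast Rat.mul_den_eq_num q
  have e3 : ((m * q.den : ℕ) : ℝ) * lr ⟨s, t⟩ = q.num * (2 * E) := by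
    push_cast
    calc (m : ℝ) * q.den * lr ⟨s, t⟩ = q.den * (m * lr ⟨s, t⟩) := by ring
      _ = q.den * (q * (2 * E)) := by rw [e1]
      _ = (q.den * q) * (2 * E) := by ring
      _ = _ := by rw [e2]
  set N := m * q.den with hN
  have hNpos : 0 < N := by
    have := q.den_pos
    positivity
  set β : ℤ√2 := (⟨s, t⟩ : ℤ√2) ^ N * ((eu ^ (-q.num) : (ℤ√2)ˣ) : ℤ√2) with hβ
  have hx : 0 < ph β := by
    rw [hβ, map_mul, map_pow]
    exact mul_pos (pow_pos h1 N) (ph_pos_eu _)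
  have hy : 0 < ph' β := by
    rw [hβ, map_mul, map_pow]
    exact mul_pos (pow_pos h2 N) (ph'_pos_eu _)
  have hlr : lr β = 0 := by
    rw [hβ, lr_mul (by rw [map_pow]; exact pow_pos h1 N) (by rw [map_pow]; exact pow_pos h2 N)
      (ph_pos_eu _) (ph'_pos_eu _), lr_pow, lr_eu, e3]
    push_cast
    ring
  unfold lr at hlr
  have hxy : ph β = ph' β := Real.log_injOn_pos hx hy (by linarith)
  rw [ph_apply, ph'_apply] at hxy
  have hs1 := one_lt_sqrt2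
  have him : β.im = 0 := by
    have : (β.im : ℝ) * √2 = 0 := by linarith
    rcases mul_eq_zero.mp this with h | h
    · exact_mod_cast h
    · linarith
  have hnorm := norm_pow_eu hst N (-q.num)
  rw [← hβ, Zsqrtd.norm_def, him] at hnorm
  obtain ⟨n, hn⟩ : ∃ n, N = n + 1 := ⟨N - 1, by omega⟩
  have hpi : Prime (p : ℤ) := Nat.prime_iff_prime_int.mp hp
  have hre : (p : ℤ) ∣ β.re := by
    have : (p : ℤ) ∣ β.re * β.re := by
      have e : β.re * β.re = (p : ℤ) ^ N := by rw [← hnorm]; ring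
      rw [e, hn]
      exact dvd_pow_self _ (by omega)
    rcases hpi.dvd_or_dvd this with h | h <;> exact h
  apply not_dvd_pow hp hp2 hst n (eu ^ (-q.num))
  rw [← hn, ← hβ, Zsqrtd.intCast_dvd, him]
  exact ⟨hre, dvd_zero _⟩

lemma lr_conj (s t : ℤ) : lr ⟨s, -t⟩ = - lr ⟨s, t⟩ := by
  unfold lr
  rw [ph_apply, ph'_apply, ph_apply, ph'_apply]
  simp only [Int.cast_neg, neg_mul, sub_neg_eq_add]
  rw [← sub_eq_add_neg]
  ring

/-- small slope, exponent `≡ ±1` modulo `m` -/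
theorem small_angle (p : ℕ) (hp : p.Prime) (hp2 : p ≠ 2)
    (hrep : ∃ s t : ℤ, 0 < s ∧ s ^ 2 - 2 * t ^ 2 = p) (m M0 : ℕ) (hm : 1 ≤ m) :
    ∃ k G1 G2 : ℕ, 1 ≤ G2 ∧ M0 * G2 ≤ G1 ∧ Nat.Coprime G1 G2 ∧
      G1 ^ 2 + 4 * (G1 * G2) + 2 * G2 ^ 2 = p ^ k ∧
      ∃ i : ℤ, (k : ℤ) = i * m + 1 ∨ (k : ℤ) = -(i * m + 1) := by
  obtain ⟨s, t, hs, hst⟩ := hrep
  have hprod : ph ⟨s, t⟩ * ph' ⟨s, t⟩ = (p : ℝ) := by
    rw [ph_mul_ph', Zsqrtd.norm_def]
    have : s * s - 2 * t * t = (p : ℤ) := by rw [← hst]; ring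
    simp only [this]
    simp
  have hsum : ph ⟨s, t⟩ + ph' ⟨s, t⟩ = 2 * s := by
    rw [ph_apply, ph'_apply]; simp only; ring
  have hsR : (0 : ℝ) < s := by exact_mod_cast hs
  have hpR : (0 : ℝ) < p := by exact_mod_cast hp.pos
  have h1 : 0 < ph ⟨s, t⟩ := by
    by_contra hcon
    push Not at hcon
    have h3 : 0 < ph' ⟨s, t⟩ := by linarith
    nlinarith
  have h2 : 0 < ph' ⟨s, t⟩ := by
    by_contra hcon
    push Not at hcon
    nlinarith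
  set L := lr ⟨s, t⟩ with hL
  set E := 2 * Real.log (3 + 2 * √2) with hE
  have hirr := irr hp hp2 hst h1 h2 m hm
  have hdense := dense_addSubgroupClosure_pair_iff.mpr hirr
  set δ : ℝ := Real.log (1 + 1 / (M0 + 2)) with hδ
  have hδpos : 0 < δ := by
    apply Real.log_pos
    have : (0 : ℝ) < 1 / (M0 + 2) := by positivity
    linarith
  obtain ⟨x, hxI, hxc⟩ := hdense.inter_open_nonempty (Set.Ioo (-L) (-L + δ)) isOpen_Ioo
    ⟨-L + δ / 2, by constructor <;> linarith⟩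
  obtain ⟨i, j, hij⟩ := AddSubgroup.mem_closure_pair.mp hxc
  rw [zsmul_eq_mul, zsmul_eq_mul] at hij
  have hφx : ((i * m + 1 : ℤ) : ℝ) * L + j * E = x + L := by
    rw [← hij]; push_cast; ring
  obtain ⟨n0, hn0⟩ : ∃ n0 : ℕ, n0 = (i * m + 1).natAbs := ⟨_, rfl⟩
  obtain ⟨e, he⟩ : ∃ e : ℤ, e = i * m + 1 := ⟨_, rfl⟩
  rw [← he] at hφx hn0
  rcases Int.natAbs_eq e with h | h
  · rw [← hn0] at h
    have hφx' : (n0 : ℝ) * L + j * E = x + L := by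
      rw [← hφx, h]
      push_cast
      ring
    obtain ⟨G1, G2, g1, g2, g3, g4⟩ := realize hp hp2 hst h1 h2 M0 n0 j
      (by rw [← hL, ← hE, hφx']; linarith [hxI.1]) (by rw [← hL, ← hE, hφx']; linarith [hxI.2])
    exact ⟨n0, G1, G2, g1, g2, g3, g4, i, Or.inl (by omega)⟩
  · rw [← hn0] at h
    have hφx' : (n0 : ℝ) * lr ⟨s, -t⟩ + j * E = x + L := by
      rw [← hφx, lr_conj, ← hL, h]
      push_cast
      ring
    have h1' : 0 < ph ⟨s, -t⟩ := by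
      rw [ph'_apply] at h2
      rw [ph_apply]
      simpa [sub_eq_add_neg] using h2
    have h2' : 0 < ph' ⟨s, -t⟩ := by
      rw [ph_apply] at h1
      rw [ph'_apply]
      simpa using h1
    obtain ⟨G1, G2, g1, g2, g3, g4⟩ := realize (s := s) (t := -t) hp hp2 (by rw [← hst]; ring) h1' h2'
      M0 n0 j
      (by rw [← hE, hφx']; linarith [hxI.1]) (by rw [← hE, hφx']; linarith [hxI.2])
    exact ⟨n0, G1, G2, g1, g2, g3, g4, i, Or.inr (by omega)⟩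

end Pool.Agent.Helper97.TV
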