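import Pool.Agent.H359R4.Geo3
import Pool.Agent.Helper97.TV.Small

/-! The rigidity theorem for the form `x^2 + 4xy + 2y^2`. Adapted from the starting file
`Pool.Agent.H359R4.Rigid`, where sums of two squares are treated. -/

set_option autoImplicit false

namespace Pool.Agent.Helper97.TV

open Finset H359R2 H359R3 H359R4

lemma nm42 (a b : ℕ) : Nm 4 2 a b = a ^ 2 + 4 * (a * b) + 2 * b ^ 2 := rfl

lemma coprime_rot {A C : ℕ} (P G1 G2 : ℕ)
    (hN : ∀ l : ℕ, l.Prime → l ∣ Nm A C G1 G2 → l ∣ P)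
    (hcop : Nat.Coprime G1 G2) (hG : (3 + A + C) * G2 ≤ G1) {R : ℕ} {x : ℕ × ℕ} (hx : x ∈ TT R)
    (hxc : Nat.Coprime x.1 x.2) (hx1 : x.1 % P = 1 % P) (hx2 : P ∣ x.2) :
    Nat.Coprime (r1 C G1 G2 x) (r2 A G1 G2 x) := by
  have hr := r1_add (A := A) (C := C) hG hx
  apply Nat.coprime_of_dvd
  intro l hl h1 h2
  have hli : Prime (l : ℤ) := Nat.prime_iff_prime_int.mp hl
  have h1' : (l : ℤ) ∣ (r1 C G1 G2 x : ℤ) := by exact_mod_cast h1
  have h2' : (l : ℤ) ∣ (r2 A G1 G2 x : ℤ) := by exact_mod_cast h2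
  have er1 : (r1 C G1 G2 x : ℤ) = G1 * x.1 - C * (G2 * x.2) := by
    zify at hr; linarith
  have er2 : (r2 A G1 G2 x : ℤ) = G1 * x.2 + G2 * x.1 + A * (G2 * x.2) := by
    unfold r2; push_cast; ring
  have hlP : l ∣ P := by
    apply hN l hl
    by_contra hne
    have hne' : ¬ (l : ℤ) ∣ (Nm A C G1 G2 : ℤ) := by
      intro h; exact hne (by exact_mod_cast h)
    have e1 : (l : ℤ) ∣ (Nm A C G1 G2 : ℤ) * x.1 := by
      have h3 : (Nm A C G1 G2 : ℤ) * x.1 =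
          (r1 C G1 G2 x : ℤ) * (G1 + A * G2) + (r2 A G1 G2 x : ℤ) * (C * G2) := by
        rw [er1, er2]; unfold Nm; push_cast; ring
      rw [h3]
      exact dvd_add (dvd_mul_of_dvd_left h1' _) (dvd_mul_of_dvd_left h2' _)
    have e2 : (l : ℤ) ∣ (Nm A C G1 G2 : ℤ) * x.2 := by
      have h3 : (Nm A C G1 G2 : ℤ) * x.2 =
          (r2 A G1 G2 x : ℤ) * G1 - (r1 C G1 G2 x : ℤ) * G2 := by
        rw [er1, er2]; unfold Nm; push_cast; ring
      rw [h3]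
      exact dvd_sub (dvd_mul_of_dvd_left h2' _) (dvd_mul_of_dvd_left h1' _)
    have e3 : l ∣ x.1 := by exact_mod_cast (hli.dvd_or_dvd e1).resolve_left hne'
    have e4 : l ∣ x.2 := by exact_mod_cast (hli.dvd_or_dvd e2).resolve_left hne'
    exact hl.one_lt.ne' (Nat.eq_one_of_dvd_coprimes hxc e3 e4)
  have hlx2 : (l : ℤ) ∣ (x.2 : ℤ) := by exact_mod_cast hlP.trans hx2
  have hlx1 : ¬ (l : ℤ) ∣ (x.1 : ℤ) := by
    intro h3
    have h3' : l ∣ x.1 := by exact_mod_cast h3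
    have h4 : x.1 % l = 1 % l := by
      rw [← Nat.mod_mod_of_dvd x.1 hlP, hx1, Nat.mod_mod_of_dvd 1 hlP]
    rw [Nat.mod_eq_of_lt hl.one_lt, Nat.mod_eq_zero_of_dvd h3'] at h4
    omega
  have e1 : (l : ℤ) ∣ G1 := by
    have h3 : (l : ℤ) ∣ (G1 : ℤ) * x.1 := by
      have h4 : (G1 : ℤ) * x.1 = (r1 C G1 G2 x : ℤ) + (C * G2) * x.2 := by rw [er1]; ring
      rw [h4]
      exact dvd_add h1' (dvd_mul_of_dvd_right hlx2 _)
    exact (hli.dvd_or_dvd h3).resolve_right hlx1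
  have e2 : (l : ℤ) ∣ G2 := by
    have h3 : (l : ℤ) ∣ (G2 : ℤ) * x.1 := by
      have h4 : (G2 : ℤ) * x.1 = (r2 A G1 G2 x : ℤ) - (G1 + A * G2) * x.2 := by rw [er2]; ring
      rw [h4]
      exact dvd_sub h2' (dvd_mul_of_dvd_right hlx2 _)
    exact (hli.dvd_or_dvd h3).resolve_right hlx1
  exact hl.one_lt.ne' (Nat.eq_one_of_dvd_coprimes hcop (by exact_mod_cast e1) (by exact_mod_cast e2))

variable {H : Type*} [AddCommGroup H]

theorem rigid_pair [DecidableEq H] {A C : ℕ} (hC : 1 ≤ C) (f : ℕ → H)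
    (hf : ∀ m n : ℕ, m ≠ 0 → n ≠ 0 → f (m * n) = f m + f n)
    (V : Finset H) (hV : V.card ≤ 2) (hsum : Summable (wtK A C {n | f (PP A C n) ∉ V}))
    (P : ℕ) (hP : 2 ≤ P)
    (hgh : ∀ M0 : ℕ, ∃ G1 G2 H1 H2 : ℕ, 1 ≤ G2 ∧ M0 * G2 ≤ G1 ∧ 1 ≤ H2 ∧ M0 * H2 ≤ H1 ∧
      G2 * H1 < G1 * H2 ∧ Nat.Coprime G1 G2 ∧ Nat.Coprime H1 H2 ∧
      (∀ l : ℕ, l.Prime → l ∣ Nm A C G1 G2 → l ∣ P) ∧
      (∀ l : ℕ, l.Prime → l ∣ Nm A C H1 H2 → l ∣ P) ∧
      f (Nm A C G1 G2) ≠ 0 ∧ f (Nm A C H1 H2) ≠ 0 ∧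
      f (Nm A C G1 G2) ≠ f (Nm A C H1 H2)) : False := by
  set B : Set ℕ := {n | f (PP A C n) ∉ V} with hB
  have hBv : ∀ n, n ∉ B → f (PP A C n) ∈ V := by
    intro n hn
    rw [hB, Set.mem_ofPred_eq, not_not] at hn
    exact hn
  obtain ⟨Y, M0, hY, hM0, hgood⟩ := exists_good3 A C hC (EA A C B)
    (summable_EA A C hC B hsum) P hP
  obtain ⟨G1, G2, H1, H2, hG2, hMG, hH2, hMH, hdet, hcG, hcH, hlG, hlH, hfG, hfH, hfGH⟩ := hgh M0
  obtain ⟨R, x, hxT, hxc, hx1, hx2, hA1, hA2, hA3, a, b, c, e, q1, q2, q3, q4, q5, q6, hYd, hedge,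
    t1, t2, t3, t4, t5, t6, s1, s2, s3, s4, s5, s6⟩ := hgood G1 G2 H1 H2 hG2 hMG hH2 hMH hdet
  have h4G : (3 + A + C) * G2 ≤ G1 := (Nat.mul_le_mul_right _ hM0).trans hMG
  have h4H : (3 + A + C) * H2 ≤ H1 := (Nat.mul_le_mul_right _ hM0).trans hMH
  have hG1 : 1 ≤ G1 := by nlinarith
  have hH1 : 1 ≤ H1 := by nlinarith
  have hc1 := coprime_rot P G1 G2 hlG hcG h4G hxT hxc hx1 hx2
  have hc2 := coprime_rot P H1 H2 hlH hcH h4H hxT hxc hx1 hx2
  have d1 := descent_T hC hf hV hBv hY hA1 hxc (q1 + q2) a b c e q1 q2 le_rfl hedge hYd t1 t2 s1 s2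
  have d2 := descent_T hC hf hV hBv hY hA2 hc1 (q3 + q4) a b c e q3 q4 le_rfl hedge hYd t3 t4 s3 s4
  have d3 := descent_T hC hf hV hBv hY hA3 hc2 (q5 + q6) a b c e q5 q6 le_rfl hedge hYd t5 t6 s5 s6
  have hx0 : Nm A C x.1 x.2 ≠ 0 := by
    rw [mem_TT] at hxT
    exact (nm_pos hC (by omega)).ne'
  have hNG : Nm A C G1 G2 ≠ 0 := (nm_pos hC (by omega)).ne'
  have hNH : Nm A C H1 H2 ≠ 0 := (nm_pos hC (by omega)).ne'
  rw [nm_rot h4G hxT, hf _ _ hNG hx0] at d2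
  rw [nm_rot h4H hxT, hf _ _ hNH hx0] at d3
  generalize f (Nm A C x.1 x.2) = t at d1 d2 d3
  generalize f (Nm A C G1 G2) = u at d2 hfG hfGH
  generalize f (Nm A C H1 H2) = v at d3 hfH hfGH
  have hT := TS_card hV (f (Nm A C a b)) (f (Nm A C c e))
  set T := TS V (f (Nm A C a b)) (f (Nm A C c e)) with hTdef
  have hsub : ({t, u + t, v + t} : Finset H) ⊆ T := by
    intro z hz
    rw [Finset.mem_insert, Finset.mem_insert, Finset.mem_singleton] at hz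
    rcases hz with rfl | rfl | rfl
    · exact d1
    · exact d2
    · exact d3
  have hcard3 : ({t, u + t, v + t} : Finset H).card = 3 := by
    rw [Finset.card_insert_of_notMem, Finset.card_pair]
    · intro h3
      exact hfGH (add_right_cancel h3)
    · rw [Finset.mem_insert, Finset.mem_singleton]
      rintro (h3 | h3)
      · exact hfG (right_eq_add.mp h3)
      · exact hfH (right_eq_add.mp h3)
  have := Finset.card_le_card hsub
  omega

lemma f_one {f : ℕ → H} (hf : ∀ m n : ℕ, m ≠ 0 → n ≠ 0 → f (m * n) = f m + f n) : f 1 = 0 := by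
  have := hf 1 1 one_ne_zero one_ne_zero
  simpa using this

lemma f_pow {f : ℕ → H} (hf : ∀ m n : ℕ, m ≠ 0 → n ≠ 0 → f (m * n) = f m + f n) {a : ℕ}
    (ha : a ≠ 0) (k : ℕ) : f (a ^ k) = k • f a := by
  induction k with
  | zero => rw [pow_zero, f_one hf, zero_smul]
  | succ k ih => rw [pow_succ, hf _ _ (pow_ne_zero k ha) ha, ih, succ_nsmul]

/-- `p` is odd and of the form `s^2 - 2 t^2` -/
def Rep (p : ℕ) : Prop := ∃ s t : ℤ, 0 < s ∧ s ^ 2 - 2 * t ^ 2 = p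

/-- one prime whose value has order at least three -/
theorem rigid3 [DecidableEq H] (f : ℕ → H)
    (hf : ∀ m n : ℕ, m ≠ 0 → n ≠ 0 → f (m * n) = f m + f n)
    (V : Finset H) (hV : V.card ≤ 2) (hsum : Summable (wtK 4 2 {n | f (PP 4 2 n) ∉ V}))
    (p : ℕ) (hp : p.Prime) (hp2 : p ≠ 2) (hrep : Rep p) (m : ℕ) (hm : 1 ≤ m) (hmf : m • f p = 0)
    (h2 : 2 • f p ≠ 0) : False := by
  apply rigid_pair (by norm_num) f hf V hV hsum p hp.two_le
  intro M
  set M0 := M + 16 with hM0def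
  have hM0 : 16 ≤ M0 := by omega
  have hMM0 : M ≤ M0 := by omega
  obtain ⟨k, G1, G2, hG2, hslope, hcop, hnorm, i, hi⟩ := small_angle p hp hp2 hrep m (8 * M0) hm
  have hMG : M0 * G2 ≤ G1 := by nlinarith
  have h16 : 16 * G2 ≤ G1 := by nlinarith
  have hG1 : 1 ≤ G1 := by omega
  have hsq : 2 * G2 ^ 2 ≤ G1 ^ 2 := by nlinarith
  obtain ⟨H1, hH1⟩ : ∃ H1, G1 ^ 2 = H1 + 2 * G2 ^ 2 := ⟨G1 ^ 2 - 2 * G2 ^ 2, by omega⟩
  set H2 := 2 * (G1 * G2) + 4 * G2 ^ 2 with hH2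
  have hH2pos : 1 ≤ H2 := by
    have := Nat.mul_le_mul hG1 hG2
    omega
  have e1 : (8 * M0 * G2) * G1 ≤ G1 * G1 := Nat.mul_le_mul_right _ hslope
  have e2 : (16 * G2) * G1 ≤ G1 * G1 := Nat.mul_le_mul_right _ h16
  have e3 : (16 * G2) * G2 ≤ G1 * G2 := Nat.mul_le_mul_right _ h16
  have hMH : M0 * H2 ≤ H1 := by
    have g1 : 8 * H2 ≤ 18 * (G1 * G2) := by
      rw [hH2]; nlinarith
    have g2 : M0 * (8 * H2) ≤ M0 * (18 * (G1 * G2)) := Nat.mul_le_mul_left _ g1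
    have g3 : 16 * (G1 * G2) ≤ M0 * (G1 * G2) := Nat.mul_le_mul_right _ hM0
    have g4 : 8 * (M0 * (G1 * G2)) ≤ G1 ^ 2 := by nlinarith
    have g5 : 16 * G2 ^ 2 ≤ G1 * G2 := by nlinarith
    nlinarith
  have hdet : G2 * H1 < G1 * H2 := by
    rw [hH2]
    have h4 : G2 * H1 ≤ G2 * G1 ^ 2 := Nat.mul_le_mul_left _ (by omega)
    have h5 : 0 < G2 * G1 ^ 2 := by positivity
    nlinarith [Nat.zero_le (G1 * G2 ^ 2)]
  have hNh : Nm 4 2 H1 H2 = p ^ (2 * k) := by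
    rw [mul_comm 2 k, pow_mul, ← hnorm, hH2, nm42]
    zify at hH1 ⊢
    have : (H1 : ℤ) = G1 ^ 2 - 2 * G2 ^ 2 := by linarith
    rw [this]; ring
  have hk : k ≠ 0 := by
    rintro rfl
    rw [pow_zero] at hnorm
    nlinarith
  have hcopH : Nat.Coprime H1 H2 := by
    apply Nat.coprime_of_dvd
    intro l hl h3 h4
    have h5 : l ∣ p ^ (2 * k) := by
      rw [← hNh, nm42]
      exact dvd_add (dvd_add (dvd_pow h3 (by norm_num))
        (dvd_mul_of_dvd_right (dvd_mul_of_dvd_left h3 _) _))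
        (dvd_mul_of_dvd_right (dvd_pow h4 (by norm_num)) _)
    have h6 : l = p := (Nat.prime_dvd_prime_iff_eq hl hp).mp (hl.dvd_of_dvd_pow h5)
    subst h6
    have hl2 : ¬ l ∣ 2 := by
      intro h
      exact hp2 ((Nat.prime_dvd_prime_iff_eq hl Nat.prime_two).mp h)
    -- `l` divides `G2` in every case
    have hG2l : l ∣ G2 := by
      have h7 : l ∣ (2 * G2) * (G1 + 2 * G2) := by
        have : (2 * G2) * (G1 + 2 * G2) = H2 := by rw [hH2]; ring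
        rwa [this]
      rcases hl.dvd_mul.mp h7 with h8 | h8
      · exact (hl.dvd_mul.mp h8).resolve_left hl2
      · have h9 : l ∣ 2 * G2 ^ 2 := by
          have e4 : (G1 + 2 * G2) ^ 2 + 4 * G2 ^ 2 =
              H1 + 4 * G2 * (G1 + 2 * G2) + 2 * G2 ^ 2 := by
            zify at hH1 ⊢
            linear_combination hH1
          have e5 : (l : ℤ) ∣ 2 * (G2 : ℤ) ^ 2 := by
            have e6 : (2 : ℤ) * (G2 : ℤ) ^ 2 = H1 + 4 * G2 * (G1 + 2 * G2) -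
                (G1 + 2 * G2) ^ 2 := by
              zify at hH1
              linear_combination hH1
            rw [e6]
            have f1 : (l : ℤ) ∣ (G1 : ℤ) + 2 * G2 := by exact_mod_cast h8
            have f2 : (l : ℤ) ∣ (H1 : ℤ) := by exact_mod_cast h3
            exact dvd_sub (dvd_add f2 (dvd_mul_of_dvd_right f1 _)) (dvd_pow f1 two_ne_zero)
          exact_mod_cast e5
        exact hl.dvd_of_dvd_pow ((hl.dvd_mul.mp h9).resolve_left hl2)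
    have hG1l : l ∣ G1 := by
      have h8 : l ∣ G1 ^ 2 := by
        rw [hH1]
        exact dvd_add h3 (dvd_mul_of_dvd_right (dvd_pow hG2l two_ne_zero) _)
      exact hl.dvd_of_dvd_pow h8
    exact hl.one_lt.ne' (Nat.eq_one_of_dvd_coprimes hcop hG1l hG2l)
  have hp0 : p ≠ 0 := hp.ne_zero
  have hnorm' : Nm 4 2 G1 G2 = p ^ k := hnorm
  set φ := k • f p with hφ
  have h2k : (2 * k) • f p = φ + φ := by rw [hφ, two_mul, add_smul]
  -- the value φ
  have hφ2 : φ + φ ≠ 0 := by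
    have hz : ∀ j : ℤ, (j * m + 1) • f p = f p := by
      intro j
      rw [add_smul, one_smul, mul_smul]
      have : (m : ℤ) • f p = 0 := by rw [natCast_zsmul]; exact hmf
      rw [this, smul_zero, zero_add]
    have hφ' : φ = (k : ℤ) • f p := by rw [hφ, natCast_zsmul]
    rw [two_smul] at h2
    rcases hi with hi | hi
    · rw [hφ', hi, hz]; exact h2
    · rw [hφ', hi, neg_smul, hz]
      intro h3
      apply h2
      have h4 : -(f p + f p) = 0 := by rw [neg_add]; exact h3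
      exact neg_eq_zero.mp h4
  have hφ1 : φ ≠ 0 := by
    intro h0
    apply hφ2
    rw [h0, add_zero]
  refine ⟨G1, G2, H1, H2, hG2, (Nat.mul_le_mul_right _ hMM0).trans hMG, hH2pos,
    (Nat.mul_le_mul_right _ hMM0).trans hMH, hdet, hcop, hcopH, ?_, ?_, ?_, ?_, ?_⟩
  · intro l hl h
    rw [hnorm'] at h
    exact hl.dvd_of_dvd_pow h
  · intro l hl h
    rw [hNh] at h
    exact hl.dvd_of_dvd_pow h
  · rw [hnorm', f_pow hf hp0]; exact hφ1
  · rw [hNh, f_pow hf hp0, h2k]; exact hφ2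
  · rw [hnorm', hNh, f_pow hf hp0, f_pow hf hp0, h2k]
    intro h3
    exact hφ1 (left_eq_add.mp h3)

/-- two primes with different nonzero values of order two -/
theorem rigid22 [DecidableEq H] (f : ℕ → H)
    (hf : ∀ m n : ℕ, m ≠ 0 → n ≠ 0 → f (m * n) = f m + f n)
    (V : Finset H) (hV : V.card ≤ 2) (hsum : Summable (wtK 4 2 {n | f (PP 4 2 n) ∉ V}))
    (p q : ℕ) (hp : p.Prime) (hq : q.Prime) (hp2 : p ≠ 2) (hq2 : q ≠ 2) (hrp : Rep p) (hrq : Rep q)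
    (h2p : 2 • f p = 0) (h2q : 2 • f q = 0) (hfp : f p ≠ 0) (hfq : f q ≠ 0) (hpq : f p ≠ f q) :
    False := by
  apply rigid_pair (by norm_num) f hf V hV hsum (p * q) (by
    have := hp.two_le; have := hq.two_le; nlinarith)
  intro M
  set M0 := M + 4 with hM0def
  have hMM0 : M ≤ M0 := by omega
  obtain ⟨k, G1, G2, hG2, hG, hcG, hnG, i, hi⟩ := small_angle p hp hp2 hrp 2 M0 (by norm_num)
  obtain ⟨k', H1, H2, hH2, hH, hcH, hnH, i', hi'⟩ := small_angle q hq hq2 hrq 2 M0 (by norm_num)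
  rw [← nm42] at hnG hnH
  have key : ∀ (r : ℕ) (x : H), 2 • x = 0 → (∃ i : ℤ, (r : ℤ) = i * (2 : ℕ) + 1 ∨
      (r : ℤ) = -(i * (2 : ℕ) + 1)) → r • x = x := by
    intro r x hx hr
    have hodd : r % 2 = 1 := by
      obtain ⟨i, hi⟩ := hr
      rcases hi with hi | hi
      · push_cast at hi; omega
      · push_cast at hi; omega
    have : r = 2 * (r / 2) + 1 := by omega
    rw [this, add_smul, one_smul, mul_comm, mul_smul, hx, smul_zero, zero_add]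
  have vG : f (Nm 4 2 G1 G2) = f p := by
    rw [hnG, f_pow hf hp.ne_zero]; exact key k _ h2p ⟨i, hi⟩
  have vH : f (Nm 4 2 H1 H2) = f q := by
    rw [hnH, f_pow hf hq.ne_zero]; exact key k' _ h2q ⟨i', hi'⟩
  have lG : ∀ l : ℕ, l.Prime → l ∣ Nm 4 2 G1 G2 → l ∣ p * q := by
    intro l hl h
    rw [hnG] at h
    exact dvd_mul_of_dvd_left (hl.dvd_of_dvd_pow h) _
  have lH : ∀ l : ℕ, l.Prime → l ∣ Nm 4 2 H1 H2 → l ∣ p * q := by
    intro l hl h
    rw [hnH] at h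
    exact dvd_mul_of_dvd_right (hl.dvd_of_dvd_pow h) _
  have hMG : M * G2 ≤ G1 := (Nat.mul_le_mul_right _ hMM0).trans hG
  have hMH : M * H2 ≤ H1 := (Nat.mul_le_mul_right _ hMM0).trans hH
  have hne : G2 * H1 ≠ G1 * H2 := by
    intro h
    have h1 : G1 ∣ H1 := hcG.dvd_of_dvd_mul_left (by rw [h]; exact Dvd.intro _ rfl)
    have h2 : H1 ∣ G1 := hcH.dvd_of_dvd_mul_right (by rw [← h]; exact Dvd.intro_left _ rfl)
    have h3 : G1 = H1 := Nat.dvd_antisymm h1 h2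
    have hG1 : 0 < G1 := by nlinarith
    rw [← h3, mul_comm] at h
    have h4 : G2 = H2 := Nat.eq_of_mul_eq_mul_left hG1 h
    apply hpq
    rw [← vG, ← vH, h3, h4]
  rcases lt_or_gt_of_ne hne with h | h
  · exact ⟨G1, G2, H1, H2, hG2, hMG, hH2, hMH, h, hcG, hcH, lG, lH, by rw [vG]; exact hfp,
      by rw [vH]; exact hfq, by rw [vG, vH]; exact hpq⟩
  · exact ⟨H1, H2, G1, G2, hH2, hMH, hG2, hMG, by rw [mul_comm H2, mul_comm H1]; exact h, hcH, hcG,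
      lH, lG, by rw [vH]; exact hfq, by rw [vG]; exact hfp, by rw [vG, vH]; exact hpq.symm⟩

end Pool.Agent.Helper97.TV
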